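import Pool.Agent.H76.HB.Stmt
import Pool.Agent.H41.ST.Loc
import Pool.Agent.H96.VK.SWG

/-!
FL2: a vertex outside the atomic submodel which lies in a small flap is conjugate to a vertex
inside.
-/

set_option autoImplicit false

open Set Pool.Agent.TK Pool.Agent.ST

namespace Pool.Agent.HB

variable {C : Type} {c0 : C}

/-- what is used of the copy `y'` of `y` over the tuple `X0` -/
lemma fl2_common (hREL : REL C) (hCTR : CTR C) {d : Rk} {M : St C}
    {X0 S : List ℕ} {y y' : ℕ} (hS : ∀ z ∈ S, z ∈ X0) (hy : y ∉ X0)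
    (hb : bf M M univ univ (W d) ((y, y') :: dg X0)) :
    y' ∉ X0 ∧ (∀ z ∈ X0, (z ∈ cp M (ms S) y ↔ z ∈ cp M (ms S) y')) ∧
      bf M M (cp M (ms S) y) (cp M (ms S) y') d ((y, y') :: dg X0) := by
  have hd : ∀ z ∈ X0, (z, z) ∈ (y, y') :: dg X0 := fun z hz =>
    List.mem_cons_of_mem _ (mem_dg.2 ⟨rfl, hz⟩)
  have hzip : ∀ z ∈ S.zip S, z ∈ (y, y') :: dg X0 := by
    intro z hz
    rw [← dg_eq_zip] at hz
    obtain ⟨h1, h2⟩ := mem_dg.1 hz
    exact List.mem_cons_of_mem _ (mem_dg.2 ⟨h1, hS _ h2⟩)
  have hom : bf M M univ univ om ((y, y') :: dg X0) := RLe.om_W d _ _ _ _ _ hb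
  refine ⟨?_, ?_, ?_⟩
  · intro h
    have h1 : y = y' := ((bf_PI hb).1 (y, y') List.mem_cons_self (y', y') (hd y' h)).2 rfl
    exact hy (h1 ▸ h)
  · intro z hz
    constructor
    · intro h
      have h1 := hCTR M M univ univ _ S S y y' z z hom rfl hzip List.mem_cons_self (hd z hz)
        (mem_univ _) (mem_univ _) (by rw [compl_univ, empty_union]; exact h)
      rw [compl_univ, empty_union] at h1
      exact h1
    · intro h
      have h0 := bf_symm hom
      have hz0 : (z, z) ∈ (((y, y') :: dg X0).map Prod.swap) :=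
        List.mem_map.2 ⟨(z, z), hd z hz, rfl⟩
      have hzip0 : ∀ w ∈ S.zip S, w ∈ (((y, y') :: dg X0).map Prod.swap) := by
        intro w hw
        have h1 := hzip w hw
        rw [← dg_eq_zip] at hw
        refine List.mem_map.2 ⟨w, h1, ?_⟩
        have := (mem_dg.1 hw).1
        ext
        · exact this.symm
        · exact this
      have h1 := hCTR M M univ univ _ S S y' y z z h0 rfl hzip0
        (List.mem_map.2 ⟨(y, y'), List.mem_cons_self, rfl⟩) hz0
        (mem_univ _) (mem_univ _) (by rw [compl_univ, empty_union]; exact h)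
      rw [compl_univ, empty_union] at h1
      exact h1
  · exact hREL M M univ univ d _ S S y y' hb rfl hzip List.mem_cons_self
      (fun h => hy (hS y h)) (subset_univ _) (subset_univ _)

/-- the value of an isomorphism at the marks -/
lemma fih_val {M M' : St C} {u u' S S' : List ℕ} {D D' : Set ℕ} {h : ℕ → ℕ}
    (hl : u.length = u'.length) (H : FIh h M (u ++ S) D M' (u' ++ S') D') :
    (∀ z ∈ u.zip u', z.1 ∈ D → h z.1 = z.2) ∧ FIh h M S D M' S' D' := by
  have hSl : S.length = S'.length := by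
    have := H.1
    simp only [List.length_append] at this
    omega
  refine ⟨?_, hSl, H.2.1, ?_⟩
  · intro z hz hzD
    have h1 := H.2.2 [z.1] (by simpa using hzD)
    have h2 : z ∈ (u ++ S).zip (u' ++ S') ++ [z.1].map (fun z => (z, h z)) := by
      rw [List.zip_append hl]
      simp [hz]
    have h3 : (z.1, h z.1) ∈ (u ++ S).zip (u' ++ S') ++ [z.1].map (fun z => (z, h z)) := by
      simp
    exact ((h1.1 z h2 _ h3).1 rfl).symm
  · intro x hx
    refine (H.2.2 x hx).mono ?_
    intro z hz
    rw [List.zip_append hl]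
    simp only [List.mem_append] at hz ⊢
    tauto

theorem pf_FL2 {C : Type} {c0 : C} (hREL : REL C) (hCTR : CTR C) : FL2 C c0 := by
  classical
  intro X b d r M s a A hXV hMX hPSR hdr hA y hyA S hSA hsm x hxA
  have hM : Valid c0 M := hXV M hMX
  have hyS : y ∉ S := fun h => hyA (hSA h)
  by_cases hc : ∃ c ∈ cp M (ms S) y, c ∈ A
  · obtain ⟨c, hcD, hcA⟩ := hc
    set X0 : List ℕ := x ++ (S ++ [c]) with hX0
    have hX0A : ∀ z ∈ X0, z ∈ A := by
      intro z hz
      simp only [hX0, List.mem_append, List.mem_singleton] at hz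
      rcases hz with hz | hz | rfl
      · exact hxA z hz
      · exact hSA hz
      · exact hcA
    obtain ⟨y', hy'A, hE⟩ := hA.tv X0 hX0A y 0
    have hb : bf M M univ univ (W d) ((y, y') :: dg X0) := by
      have := hdr _ _ _ _ _ hE.2
      rw [dg_eq_zip]
      exact this
    obtain ⟨hy'X, hkey, hbf⟩ := fl2_common (S := S) hREL hCTR
      (fun z hz => by simp [hX0, hz]) (fun h => hyA (hX0A y h)) hb
    have hy'S : y' ∉ S := fun h => hy'X (by simp [hX0, h])
    have hcD' : c ∈ cp M (ms S) y' := (hkey c (by simp [hX0])).1 hcD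
    have hDD : cp M (ms S) y' = cp M (ms S) y :=
      (isCp_cp hy'S).eq_of_inter hM (isCp_cp hyS) hcD' hcD
    rw [hDD] at hbf
    set D := cp M (ms S) y with hD
    set xD : List ℕ := x.filter (fun z => decide (z ∈ D)) with hxD
    have hxDD : ∀ z ∈ xD, z ∈ D := by
      intro z hz
      rw [hxD, List.mem_filter] at hz
      simpa using hz.2
    have hFB : FB d M ((y :: xD) ++ S) D M ((y' :: xD) ++ S) D := by
      refine ⟨by simp, bf_mono hbf ?_⟩
      intro z hz
      rw [List.zip_append (by simp), List.zip_cons_cons, ← dg_eq_zip, ← dg_eq_zip] at hz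
      simp only [List.mem_append, List.mem_cons] at hz ⊢
      rcases hz with (hz | hz) | hz
      · exact Or.inl hz
      · obtain ⟨h1, h2⟩ := mem_dg.1 hz
        refine Or.inr (mem_dg.2 ⟨h1, ?_⟩)
        rw [hxD, List.mem_filter] at h2
        simp [hX0, h2.1]
      · obtain ⟨h1, h2⟩ := mem_dg.1 hz
        exact Or.inr (mem_dg.2 ⟨h1, by simp [hX0, h2]⟩)
    obtain ⟨h, hh⟩ := hPSR M hMX S y hyS hsm (y :: xD) (by
      intro z hz
      rcases List.mem_cons.1 hz with rfl | hz
      · exact self_mem_cp hyS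
      · exact hxDD z hz) M _ D hFB
    obtain ⟨hval, hFI⟩ := fih_val (by simp) hh
    have hhy : h y = y' := hval (y, y') (by simp) (self_mem_cp hyS)
    have hhx : ∀ z ∈ xD, h z = z := by
      intro z hz
      refine hval (z, z) ?_ (hxDD z hz)
      rw [List.zip_cons_cons, ← dg_eq_zip]
      exact List.mem_cons_of_mem _ (mem_dg.2 ⟨rfl, hz⟩)
    obtain ⟨f, hf, hfD, hff⟩ := Pool.Agent.H41.ST.exists_la hM (isCp_cp hyS) hFI
    refine ⟨y', hy'A, f⁻¹, Pool.Agent.H94.VK.isoH_inv hf, ?_, ?_⟩
    · intro z hz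
      change f.symm z = z
      rw [Equiv.symm_apply_eq]
      by_cases hzD : z ∈ D
      · rw [hfD z hzD, hhx z (by rw [hxD, List.mem_filter]; exact ⟨hz, by simpa using hzD⟩)]
      · rw [hff z hzD]
    · change f.symm y' = y
      rw [Equiv.symm_apply_eq, hfD y (self_mem_cp hyS), hhy]
  · push Not at hc
    set X0 : List ℕ := x ++ S with hX0
    have hX0A : ∀ z ∈ X0, z ∈ A := by
      intro z hz
      simp only [hX0, List.mem_append] at hz
      rcases hz with hz | hz
      · exact hxA z hz
      · exact hSA hz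
    obtain ⟨y', hy'A, hE⟩ := hA.tv X0 hX0A y 0
    have hb : bf M M univ univ (W d) ((y, y') :: dg X0) := by
      have := hdr _ _ _ _ _ hE.2
      rw [dg_eq_zip]
      exact this
    obtain ⟨hy'X, hkey, hbf⟩ := fl2_common (S := S) hREL hCTR
      (fun z hz => by simp [hX0, hz]) (fun h => hyA (hX0A y h)) hb
    have hy'S : y' ∉ S := fun h => hy'X (by simp [hX0, h])
    have hne : cp M (ms S) y ≠ cp M (ms S) y' := by
      intro h
      exact hc y' (by rw [h]; exact self_mem_cp hy'S) hy'A
    have hFB : FB d M ([y] ++ S) (cp M (ms S) y) M ([y'] ++ S) (cp M (ms S) y') := by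
      refine ⟨by simp, bf_mono hbf ?_⟩
      intro z hz
      rw [List.zip_append (by simp), ← dg_eq_zip] at hz
      simp only [List.mem_append, List.mem_cons, List.zip_cons_cons, List.zip_nil_left,
        List.not_mem_nil, or_false] at hz ⊢
      rcases hz with hz | hz
      · exact Or.inl hz
      · obtain ⟨h1, h2⟩ := mem_dg.1 hz
        exact Or.inr (mem_dg.2 ⟨h1, by simp [hX0, h2]⟩)
    obtain ⟨h, hh⟩ := hPSR M hMX S y hyS hsm [y] (by
      intro z hz
      rw [List.mem_singleton] at hz
      rw [hz]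
      exact self_mem_cp hyS) M _ _ hFB
    obtain ⟨hval, hFI⟩ := fih_val (by simp) hh
    have hhy : h y = y' := hval (y, y') (by simp) (self_mem_cp hyS)
    obtain ⟨f, hf, hff, hfD, -, hfx⟩ := Pool.Agent.H71.VK.pf_SWG (c0 := c0) M hM S _ _ h
      (isCp_cp hyS) (isCp_cp hy'S) hne hFI
    refine ⟨y', hy'A, f, hf, ?_, ?_⟩
    · intro z hz
      have hzD : z ∉ cp M (ms S) y := fun h => hc z h (hxA z hz)
      refine hfx z hzD ?_
      rw [← hkey z (by simp [hX0, hz])]
      exact hzD
    · have h1 : f y = y' := by rw [hfD y (self_mem_cp hyS), hhy]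
      rw [← h1, hff]

end Pool.Agent.HB
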