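import Pool.Agent.H76.HB.Stmt

/-!
TVM: copying tuples into the atomic submodel.
-/

set_option autoImplicit false

open Set Pool.Agent.TK Pool.Agent.ST

namespace Pool.Agent.HB

theorem pf_TVM {C : Type} : TVM C := by
  intro X r M s a A hA x hx t
  induction t with
  | nil => exact fun n => ⟨[], rfl, fun z hz => absurd hz (by simp), FB.refl _ _ _ _⟩
  | cons c t ih =>
    intro n
    obtain ⟨t', ht', htA, hE⟩ := ih (n + 1)
    obtain ⟨c1, -, hc1⟩ := (hE.2 0).2.1 c (mem_univ _)
    have hx' : ∀ z ∈ t' ++ x, z ∈ A := by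
      intro z hz
      rcases List.mem_append.1 hz with hz | hz
      · exact htA z hz
      · exact hx z hz
    obtain ⟨c', hc', hE'⟩ := hA.tv (t' ++ x) hx' c1 n
    refine ⟨c' :: t', by simp [ht'], ?_, ?_⟩
    · intro z hz
      rcases List.mem_cons.1 hz with rfl | hz
      · exact hc'
      · exact htA z hz
    · have h1 : EB (Rk.sucN n r) M (c :: t ++ x) M (c1 :: (t' ++ x)) :=
        ⟨by simp [ht'], hc1⟩
      exact h1.trans hE'

end Pool.Agent.HB
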